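import Pool.Agent.H90.TP.Low

/-!
# MP_09e4ca_co (partial): a family of triples with `gcd(n,m,h) = 1` for which the bound is not attained
-/

set_option autoImplicit false

namespace Pool.Agent.Results.MP_09e4ca_co.TwinPrimes

open Finset

/-- the `h`-fold sumset `hA`: all `a₁ + ⋯ + a_h` with `a_i ∈ A`, repetitions allowed -/
def hfold {G : Type*} [AddCommGroup G] [DecidableEq G] (A : Finset G) : ℕ → Finset G
  | 0 => {0}
  | h + 1 => (hfold A h ×ˢ A).image (fun p => p.1 + p.2)

/-- the restricted `h`-fold sumset: all sums of `h` pairwise distinct elements of `A` -/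
def hhat {G : Type*} [AddCommGroup G] [DecidableEq G] (A : Finset G) (h : ℕ) : Finset G :=
  (A.powersetCard h).image (fun s => ∑ x ∈ s, x)

/-- `u(n,m,h)`: the minimum of `|hA|` over the `m`-subsets `A` of `ZMod n` -/
noncomputable def u (n m h : ℕ) : ℕ :=
  sInf {t | ∃ A : Finset (ZMod n), A.card = m ∧ (hfold A h).card = t}

/-- `û(n,m,h)`: the minimum of `|h^A|` over the `m`-subsets `A` of `ZMod n` -/
noncomputable def uhat (n m h : ℕ) : ℕ :=
  sInf {t | ∃ A : Finset (ZMod n), A.card = m ∧ (hhat A h).card = t}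

theorem hfold_eq {G : Type*} [AddCommGroup G] [DecidableEq G] (A : Finset G) : ∀ h : ℕ,
    hfold A h = R53.RestSum.hfold A h
  | 0 => rfl
  | h + 1 => by rw [hfold, R53.RestSum.hfold, hfold_eq A h]

section con

variable {p : ℕ} (hp : p.Prime) (hq : (p + 2).Prime) (hp3 : 3 ≤ p)

/-- the set -/
def S0 (p : ℕ) [NeZero (p + 2)] (e : ZMod (p * (p + 2)) ≃+* ZMod p × ZMod (p + 2)) :
    Finset (ZMod (p * (p + 2))) :=
  ((({0, 1} : Finset (ZMod p)) ×ˢ (univ.erase (0 : ZMod (p + 2)))).image e.symm)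

include hp hq hp3 in
theorem card_S0 [NeZero (p + 2)] (e : ZMod (p * (p + 2)) ≃+* ZMod p × ZMod (p + 2)) :
    (S0 p e).card = 2 * p + 2 := by
  have : Fact p.Prime := ⟨hp⟩
  have : Fact (p + 2).Prime := ⟨hq⟩
  rw [S0, Finset.card_image_of_injective _ e.symm.injective, Finset.card_product,
    Finset.card_pair zero_ne_one, Finset.card_erase_of_mem (mem_univ _), Finset.card_univ,
    ZMod.card]
  omega

include hp hq hp3 in
theorem sum_zero [NeZero (p + 2)] : ∑ x : ZMod (p + 2), x = 0 := by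
  have : Fact (p + 2).Prime := ⟨hq⟩
  have h1 : ∑ x : ZMod (p + 2), x = ∑ x : ZMod (p + 2), (-x) :=
    (Equiv.sum_comp (Equiv.neg (ZMod (p + 2))) (fun x => x)).symm
  rw [Finset.sum_neg_distrib] at h1
  have h2 : (2 : ZMod (p + 2)) * ∑ x : ZMod (p + 2), x = 0 := by linear_combination h1
  have h3 : (2 : ZMod (p + 2)) ≠ 0 := by
    intro hh
    have h4 : ((2 : ℕ) : ZMod (p + 2)) = 0 := by exact_mod_cast hh
    rw [ZMod.natCast_eq_zero_iff] at h4
    have := Nat.le_of_dvd (by omega) h4
    omega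
  exact (mul_eq_zero.1 h2).resolve_left h3

include hp hq hp3 in
theorem zero_notMem [NeZero (p + 2)] (e : ZMod (p * (p + 2)) ≃+* ZMod p × ZMod (p + 2)) :
    (0 : ZMod (p * (p + 2))) ∉ hhat (S0 p e) p := by
  have hF : Fact p.Prime := ⟨hp⟩
  have hF2 : Fact (p + 2).Prime := ⟨hq⟩
  intro h0
  rw [hhat, mem_image] at h0
  obtain ⟨s, hs, hsum⟩ := h0
  rw [mem_powersetCard] at hs
  have hmem : ∀ x ∈ s, ((e x).1 = 0 ∨ (e x).1 = 1) ∧ (e x).2 ≠ 0 := by
    intro x hx
    have h1 := hs.1 hx
    rw [S0, mem_image] at h1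
    obtain ⟨y, hy, rfl⟩ := h1
    rw [mem_product, mem_insert, mem_singleton, mem_erase] at hy
    rw [RingEquiv.apply_symm_apply]
    exact ⟨hy.1, hy.2.1⟩
  have hes : ∑ x ∈ s, e x = 0 := by rw [← map_sum, hsum, map_zero]
  have hs1 : ∑ x ∈ s, (e x).1 = 0 := by
    have := congrArg Prod.fst hes
    rwa [Prod.fst_sum] at this
  have hs2 : ∑ x ∈ s, (e x).2 = 0 := by
    have := congrArg Prod.snd hes
    rwa [Prod.snd_sum] at this
  -- all first coordinates are equal
  have hsum1 : ∑ x ∈ s, (e x).1 = ((s.filter (fun x => (e x).1 = 1)).card : ZMod p) := by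
    rw [Finset.card_filter, Nat.cast_sum]
    apply Finset.sum_congr rfl
    intro x hx
    rcases (hmem x hx).1 with h1 | h1
    · rw [h1, if_neg zero_ne_one]; simp
    · rw [h1, if_pos rfl]; simp
  rw [hsum1, ZMod.natCast_eq_zero_iff] at hs1
  have hle := Finset.card_filter_le s (fun x => (e x).1 = 1)
  rw [hs.2] at hle
  have hconst : ∃ c, ∀ x ∈ s, (e x).1 = c := by
    rcases Nat.eq_zero_or_pos (s.filter (fun x => (e x).1 = 1)).card with h1 | h1
    · refine ⟨0, fun x hx => ?_⟩
      rcases (hmem x hx).1 with h2 | h2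
      · exact h2
      · rw [Finset.card_eq_zero] at h1
        have : x ∈ s.filter (fun x => (e x).1 = 1) := mem_filter.2 ⟨hx, h2⟩
        rw [h1] at this
        exact absurd this (Finset.notMem_empty x)
    · refine ⟨1, fun x hx => ?_⟩
      have h2 := Nat.le_of_dvd h1 hs1
      have h3 : s.filter (fun x => (e x).1 = 1) = s :=
        Finset.eq_of_subset_of_card_le (Finset.filter_subset _ _) (by rw [hs.2]; exact h2)
      rw [← h3, mem_filter] at hx
      exact hx.2
  obtain ⟨c, hc⟩ := hconst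
  have hinj : Set.InjOn (fun x => (e x).2) (s : Set (ZMod (p * (p + 2)))) := by
    intro x hx y hy hxy
    apply e.injective
    exact Prod.ext (by rw [hc x hx, hc y hy]) hxy
  have hTc : (s.image (fun x => (e x).2)).card = p := by
    rw [Finset.card_image_of_injOn hinj, hs.2]
  have hTs : ∑ y ∈ s.image (fun x => (e x).2), y = 0 := by
    rw [Finset.sum_image hinj]
    exact hs2
  have hTsub : s.image (fun x => (e x).2) ⊆ univ.erase 0 := by
    intro y hy
    rw [mem_image] at hy
    obtain ⟨x, hx, rfl⟩ := hy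
    exact mem_erase.2 ⟨(hmem x hx).2, mem_univ _⟩
  have hUc : (univ.erase (0 : ZMod (p + 2))).card = p + 1 := by
    rw [Finset.card_erase_of_mem (mem_univ _), Finset.card_univ, ZMod.card]
    omega
  have hone : (univ.erase (0 : ZMod (p + 2)) \ s.image (fun x => (e x).2)).card = 1 := by
    rw [Finset.card_sdiff_of_subset hTsub, hUc, hTc]
    omega
  rw [Finset.card_eq_one] at hone
  obtain ⟨t, ht⟩ := hone
  have h5 := Finset.sum_sdiff (f := fun y : ZMod (p + 2) => y) hTsub
  rw [ht, hTs, Finset.sum_singleton, add_zero] at h5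
  have h6 := Finset.add_sum_erase univ (fun y : ZMod (p + 2) => y) (mem_univ 0)
  rw [sum_zero hp hq hp3, ← h5] at h6
  simp only [zero_add] at h6
  have h7 : t ∈ univ.erase (0 : ZMod (p + 2)) \ s.image (fun x => (e x).2) := by
    rw [ht]; exact mem_singleton_self t
  rw [mem_sdiff, mem_erase] at h7
  exact h7.1.1 h6

end con

/-- For twin primes `p, p + 2` the bound is not attained for `(n,m,h) = (p (p+2), 2 p + 2, p)`. -/
theorem result (p : ℕ) (hp : p.Prime) (hq : (p + 2).Prime) :
    p < 2 * p + 2 ∧ 2 * p + 2 ≤ p * (p + 2) ∧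
    Nat.gcd (Nat.gcd (p * (p + 2)) (2 * p + 2)) p = 1 ∧
    u (p * (p + 2)) (2 * p + 2) p = p * (p + 2) ∧
    uhat (p * (p + 2)) (2 * p + 2) p <
      min (u (p * (p + 2)) (2 * p + 2) p) (p * (2 * p + 2) - p ^ 2 + 1) := by
  have hp2 : p ≠ 2 := by
    rintro rfl
    exact absurd hq (by norm_num)
  have hp3 : 3 ≤ p := by
    have := hp.two_le
    omega
  have hF : Fact p.Prime := ⟨hp⟩
  have hF2 : Fact (p + 2).Prime := ⟨hq⟩
  have hn0 : NeZero (p * (p + 2)) := ⟨by positivity⟩
  have hcop : Nat.Coprime p (p + 2) := by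
    rw [Nat.coprime_primes hp hq]; omega
  let e := ZMod.chineseRemainder hcop
  have hfull : ∀ A : Finset (ZMod (p * (p + 2))), A.card = 2 * p + 2 → hfold A p = univ := by
    intro A hA
    rw [hfold_eq]
    apply Pool.Agent.H90.TP.full hp hq hp3
      ((RingHom.fst (ZMod p) (ZMod (p + 2))).comp (e : _ →+* _)).toAddMonoidHom
      ((RingHom.snd (ZMod p) (ZMod (p + 2))).comp (e : _ →+* _)).toAddMonoidHom
    · intro x y h1 h2
      exact e.injective (Prod.ext h1 h2)
    · rw [ZMod.card]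
    · exact hA
  have hu : u (p * (p + 2)) (2 * p + 2) p = p * (p + 2) := by
    have : {t | ∃ A : Finset (ZMod (p * (p + 2))), A.card = 2 * p + 2 ∧
        (hfold A p).card = t} = {p * (p + 2)} := by
      ext t
      constructor
      · rintro ⟨A, hA, rfl⟩
        rw [hfull A hA, Finset.card_univ, ZMod.card]
        rfl
      · rintro rfl
        refine ⟨S0 p e, card_S0 hp hq hp3 e, ?_⟩
        rw [hfull _ (card_S0 hp hq hp3 e), Finset.card_univ, ZMod.card]
    rw [u, this, csInf_singleton]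
  refine ⟨by omega, by nlinarith, ?_, hu, ?_⟩
  · rw [← Nat.Coprime]
    apply Nat.Coprime.symm
    rw [Nat.Prime.coprime_iff_not_dvd hp]
    intro hh
    have h1 : p ∣ 2 * p + 2 := hh.trans (Nat.gcd_dvd_right _ _)
    have h2 : p ∣ 2 := (Nat.dvd_add_right (Dvd.intro_left 2 rfl)).1 h1
    have := Nat.le_of_dvd (by omega) h2
    omega
  · have h1 : uhat (p * (p + 2)) (2 * p + 2) p ≤ (hhat (S0 p e) p).card :=
      Nat.sInf_le ⟨S0 p e, card_S0 hp hq hp3 e, rfl⟩
    have h2 : hhat (S0 p e) p ⊆ univ.erase 0 := by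
      intro y hy
      refine mem_erase.2 ⟨?_, mem_univ _⟩
      rintro rfl
      exact zero_notMem hp hq hp3 e hy
    have h3 := Finset.card_le_card h2
    rw [Finset.card_erase_of_mem (mem_univ _), Finset.card_univ, ZMod.card] at h3
    have h4 : 0 < p * (p + 2) := by positivity
    have h5 : p * (2 * p + 2) - p ^ 2 + 1 = p * (p + 2) + 1 := by
      have : p * (2 * p + 2) = p * (p + 2) + p ^ 2 := by ring
      omega
    rw [hu, h5, lt_min_iff]
    omega

end Pool.Agent.Results.MP_09e4ca_co.TwinPrimes
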