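import Mathlib

/-!
# MP_09e4ca_co (partial): exceptional triples with `h = 2` and `m` odd
-/

set_option autoImplicit false

namespace Pool.Agent.Results.MP_09e4ca_co.TwoFold

open Finset

/-- the `h`-fold sumset `hA`: all `a₁ + ⋯ + a_h` with `a_i ∈ A`, repetitions allowed -/
def hfold {G : Type*} [AddCommGroup G] [DecidableEq G] (A : Finset G) : ℕ → Finset G
  | 0 => {0}
  | h + 1 => (hfold A h ×ˢ A).image (fun p => p.1 + p.2)

/-- the restricted `h`-fold sumset: all sums of `h` pairwise distinct elements of `A` -/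
def hhat {G : Type*} [AddCommGroup G] [DecidableEq G] (A : Finset G) (h : ℕ) : Finset G :=
  (A.powersetCard h).image (fun s => ∑ x ∈ s, x)

/-- `u(n,m,h)`: the minimum of `|hA|` over the `m`-subsets `A` of `ZMod n` -/
noncomputable def u (n m h : ℕ) : ℕ :=
  sInf {t | ∃ A : Finset (ZMod n), A.card = m ∧ (hfold A h).card = t}

/-- `û(n,m,h)`: the minimum of `|h^A|` over the `m`-subsets `A` of `ZMod n` -/
noncomputable def uhat (n m h : ℕ) : ℕ :=
  sInf {t | ∃ A : Finset (ZMod n), A.card = m ∧ (hhat A h).card = t}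

/-- the coordinates of the elements of the set -/
def S0 (r l : ℕ) : Finset (ℕ × ℕ) :=
  (((range (2 * l + 1) ×ˢ Ico 1 r) ∪ (range (l + 1) ×ˢ {r})) ∪ {(0, 0)}) ∪
    (Ico (l + 1) (2 * l + 1) ×ˢ {0})

/-- the set, as a set of natural numbers -/
def A0 (r l : ℕ) : Finset ℕ := (S0 r l).image (fun P => 2 * r * P.1 + P.2)

theorem mem_S0 {r l : ℕ} {P : ℕ × ℕ} (hP : P ∈ S0 r l) :
    (P.1 ≤ 2 * l ∧ 1 ≤ P.2 ∧ P.2 < r) ∨ (P.1 ≤ l ∧ P.2 = r) ∨ (P.1 = 0 ∧ P.2 = 0) ∨
      (l + 1 ≤ P.1 ∧ P.1 ≤ 2 * l ∧ P.2 = 0) := by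
  obtain ⟨i, c⟩ := P
  simp only [S0, mem_union, mem_product, mem_range, mem_singleton, mem_Ico, Prod.mk.injEq] at hP ⊢
  omega

theorem card_S0 (r l : ℕ) (hr : 1 ≤ r) : (S0 r l).card = r * (2 * l + 1) + 1 := by
  unfold S0
  rw [Finset.card_union_of_disjoint, Finset.card_union_of_disjoint,
    Finset.card_union_of_disjoint, Finset.card_product, Finset.card_product, Finset.card_product,
    Finset.card_range, Finset.card_range, Nat.card_Ico, Nat.card_Ico,
    Finset.card_singleton, Finset.card_singleton, Finset.card_singleton]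
  · obtain ⟨t, rfl⟩ : ∃ t, r = t + 1 := ⟨r - 1, by omega⟩
    rw [Nat.add_sub_cancel, add_mul t 1, mul_comm (2 * l + 1) t]
    omega
  · rw [Finset.disjoint_left]
    rintro ⟨i, c⟩ hx hx'
    simp only [mem_product, mem_range, mem_singleton, mem_Ico] at hx hx'
    omega
  · rw [Finset.disjoint_left]
    rintro ⟨i, c⟩ hx hx'
    simp only [mem_union, mem_product, mem_range, mem_singleton, mem_Ico, Prod.mk.injEq] at hx hx'
    omega
  · rw [Finset.disjoint_left]
    rintro ⟨i, c⟩ hx hx'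
    simp only [mem_union, mem_product, mem_range, mem_singleton, mem_Ico, Prod.mk.injEq] at hx hx'
    omega

theorem key {r i c q : ℕ} (hr : 1 ≤ r) (hc : c ≤ 2 * r) (h : 2 * r * i + c = 2 * r * q) :
    (c = 0 ∧ i = q) ∨ (c = 2 * r ∧ i + 1 = q) := by
  by_cases hc2 : c = 2 * r
  · right
    refine ⟨hc2, ?_⟩
    apply Nat.eq_of_mul_eq_mul_left (show 0 < 2 * r by omega)
    rw [← h, hc2]
    ring
  · left
    have h1 : (2 * r * i + c) % (2 * r) = c := by
      rw [Nat.mul_add_mod, Nat.mod_eq_of_lt (by omega)]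
    rw [h, Nat.mul_mod_right] at h1
    refine ⟨h1.symm, ?_⟩
    apply Nat.eq_of_mul_eq_mul_left (show 0 < 2 * r by omega)
    rw [← h, ← h1, add_zero]

theorem inj_S0 (r l : ℕ) (hr : 1 ≤ r) :
    Set.InjOn (fun P : ℕ × ℕ => 2 * r * P.1 + P.2) (S0 r l : Set (ℕ × ℕ)) := by
  intro P hP Q hQ hPQ
  have h1 := mem_S0 hP
  have h2 := mem_S0 hQ
  have hPc : P.2 < 2 * r := by omega
  have hQc : Q.2 < 2 * r := by omega
  have e1 : P.2 = Q.2 := by
    have h3 : (2 * r * P.1 + P.2) % (2 * r) = (2 * r * Q.1 + Q.2) % (2 * r) :=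
      congrArg (· % (2 * r)) hPQ
    rwa [Nat.mul_add_mod, Nat.mul_add_mod, Nat.mod_eq_of_lt hPc, Nat.mod_eq_of_lt hQc] at h3
  have e2 : 2 * r * P.1 = 2 * r * Q.1 := by
    have h3 : 2 * r * P.1 + P.2 = 2 * r * Q.1 + Q.2 := hPQ
    omega
  exact Prod.ext (Nat.eq_of_mul_eq_mul_left (by omega) e2) e1

theorem card_A0 (r l : ℕ) (hr : 1 ≤ r) : (A0 r l).card = r * (2 * l + 1) + 1 := by
  rw [A0, Finset.card_image_of_injOn (inj_S0 r l hr), card_S0 r l hr]

theorem lt_A0 {r l x : ℕ} (hr : 1 ≤ r) (hx : x ∈ A0 r l) : x < 2 * r * (2 * l + 1) := by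
  rw [A0, mem_image] at hx
  obtain ⟨P, hP, rfl⟩ := hx
  have h1 := mem_S0 hP
  have h2 : 2 * r * P.1 ≤ 2 * r * (2 * l) := Nat.mul_le_mul_left _ (by omega)
  rw [mul_add (2 * r), mul_one]
  omega

theorem sum_A0 {r l x y : ℕ} (hr : 1 ≤ r) (hx : x ∈ A0 r l) (hy : y ∈ A0 r l)
    (hxy : x ≠ y) (q : ℕ) (hq : q = 0 ∨ q = 2 * l + 1 ∨ q = 1 ∨ q = 2 * l + 2) :
    x + y ≠ 2 * r * q := by
  rw [A0, mem_image] at hx hy
  obtain ⟨P, hP, rfl⟩ := hx
  obtain ⟨Q, hQ, rfl⟩ := hy
  have h1 := mem_S0 hP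
  have h2 := mem_S0 hQ
  have hne : ¬ (P.1 = Q.1 ∧ P.2 = Q.2) := by
    rintro ⟨e1, e2⟩
    exact hxy (by rw [e1, e2])
  intro h
  have h3 : 2 * r * (P.1 + Q.1) + (P.2 + Q.2) = 2 * r * q := by
    rw [← h]; ring
  have h4 := key hr (by omega) h3
  omega

/-- the set in `ZMod n` -/
def A1 (r l : ℕ) : Finset (ZMod (2 * r * (2 * l + 1))) :=
  (A0 r l).image (fun x : ℕ => (x : ZMod (2 * r * (2 * l + 1))))

theorem card_A1 (r l : ℕ) (hr : 1 ≤ r) : (A1 r l).card = r * (2 * l + 1) + 1 := by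
  rw [A1, Finset.card_image_of_injOn, card_A0 r l hr]
  intro x hx y hy hxy
  have h1 : x % (2 * r * (2 * l + 1)) = y % (2 * r * (2 * l + 1)) :=
    (ZMod.natCast_eq_natCast_iff' _ _ _).1 hxy
  rwa [Nat.mod_eq_of_lt (lt_A0 hr hx), Nat.mod_eq_of_lt (lt_A0 hr hy)] at h1

theorem two_lt {r l : ℕ} (hr : 1 ≤ r) (hl : 1 ≤ l) : 2 * r < 2 * r * (2 * l + 1) := by
  have : 2 * r * 1 ≤ 2 * r * (2 * l) := Nat.mul_le_mul_left _ (by omega)
  rw [mul_add (2 * r), mul_one]
  omega

theorem avoid {n x y T : ℕ} [NeZero n] (hx1 : x < n) (hy1 : y < n) (hT : T < n)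
    (h0 : x + y ≠ 0) (h1' : x + y ≠ n) (h2' : x + y ≠ T) (h3' : x + y ≠ n + T) :
    (x : ZMod n) + (y : ZMod n) ∈ (univ.erase (0 : ZMod n)).erase (T : ZMod n) := by
  rw [mem_erase, mem_erase]
  refine ⟨?_, ?_, mem_univ _⟩
  · intro h
    have h1 : ((x + y : ℕ) : ZMod n) = ((T : ℕ) : ZMod n) := by
      rw [Nat.cast_add]; exact h
    rw [ZMod.natCast_eq_natCast_iff'] at h1
    rw [Nat.mod_eq_of_lt hT] at h1
    by_cases hlt : x + y < n
    · rw [Nat.mod_eq_of_lt hlt] at h1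
      exact h2' h1
    · rw [Nat.mod_eq_sub_mod (by omega), Nat.mod_eq_of_lt (by omega)] at h1
      exact h3' (by omega)
  · intro h
    have h1 : ((x + y : ℕ) : ZMod n) = ((0 : ℕ) : ZMod n) := by
      rw [Nat.cast_add, Nat.cast_zero]; exact h
    rw [ZMod.natCast_eq_natCast_iff', Nat.zero_mod] at h1
    by_cases hlt : x + y < n
    · rw [Nat.mod_eq_of_lt hlt] at h1
      exact h0 h1
    · rw [Nat.mod_eq_sub_mod (by omega), Nat.mod_eq_of_lt (by omega)] at h1
      exact h1' (by omega)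

theorem hhat_sub (r l : ℕ) (hr : 1 ≤ r) (hl : 1 ≤ l) [NeZero (2 * r * (2 * l + 1))] :
    hhat (A1 r l) 2 ⊆ (univ.erase 0).erase ((2 * r : ℕ) : ZMod (2 * r * (2 * l + 1))) := by
  intro g hg
  rw [hhat, mem_image] at hg
  obtain ⟨s, hs, rfl⟩ := hg
  rw [mem_powersetCard] at hs
  obtain ⟨hsub, hc⟩ := hs
  rw [Finset.card_eq_two] at hc
  obtain ⟨a, b, hab, rfl⟩ := hc
  rw [Finset.sum_pair hab]
  have ha := hsub (mem_insert_self a _)
  have hb := hsub (mem_insert_of_mem (mem_singleton_self b))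
  rw [A1, mem_image] at ha hb
  obtain ⟨x, hx, rfl⟩ := ha
  obtain ⟨y, hy, rfl⟩ := hb
  have hxy : x ≠ y := by rintro rfl; exact hab rfl
  have hs := sum_A0 hr hx hy hxy
  have hx1 := lt_A0 hr hx
  have hy1 := lt_A0 hr hy
  have h0 := hs 0 (by omega)
  have h1' := hs (2 * l + 1) (by omega)
  have h2' := hs 1 (by omega)
  have h3' := hs (2 * l + 2) (by omega)
  have e3 : 2 * r * (2 * l + 2) = 2 * r * (2 * l + 1) + 2 * r := by ring
  have hT := two_lt hr hl
  rw [mul_zero] at h0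
  rw [mul_one] at h2'
  rw [e3] at h3'
  exact avoid hx1 hy1 hT h0 h1' h2' h3'

theorem hfold_two {n : ℕ} [NeZero n] (A : Finset (ZMod n)) (hA : n < 2 * A.card) :
    hfold A 2 = univ := by
  ext g
  simp only [mem_univ, iff_true]
  have h1 : ∃ a ∈ A, g - a ∈ A := by
    by_contra hcon
    push Not at hcon
    have hd : Disjoint A (A.image (fun x => g - x)) := by
      rw [Finset.disjoint_left]
      intro a ha ha'
      rw [mem_image] at ha'
      obtain ⟨b, hb, rfl⟩ := ha'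
      exact hcon b hb ha
    have hc : (A.image (fun x => g - x)).card = A.card := by
      rw [Finset.card_image_of_injective _ (fun x y hxy => by simpa using hxy)]
    have h2 := Finset.card_le_univ (A ∪ A.image (fun x => g - x))
    rw [Finset.card_union_of_disjoint hd, hc, ZMod.card] at h2
    omega
  obtain ⟨a, ha, hga⟩ := h1
  simp only [hfold, mem_image, mem_product, mem_singleton]
  exact ⟨(a, g - a), ⟨⟨(0, a), ⟨rfl, ha⟩, by simp⟩, hga⟩, by simp⟩

theorem main (r l : ℕ) (hr : 1 ≤ r) (hl : 1 ≤ l) :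
    u (2 * r * (2 * l + 1)) (r * (2 * l + 1) + 1) 2 = 2 * r * (2 * l + 1) ∧
    uhat (2 * r * (2 * l + 1)) (r * (2 * l + 1) + 1) 2 ≤ 2 * r * (2 * l + 1) - 2 := by
  have hn0 : NeZero (2 * r * (2 * l + 1)) := ⟨by positivity⟩
  have e1 : 2 * r * (2 * l + 1) = 2 * (r * (2 * l + 1)) := by ring
  constructor
  · have : {t | ∃ A : Finset (ZMod (2 * r * (2 * l + 1))), A.card = r * (2 * l + 1) + 1 ∧
        (hfold A 2).card = t} = {2 * r * (2 * l + 1)} := by
      ext t
      constructor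
      · rintro ⟨A, hA, rfl⟩
        rw [hfold_two A (by rw [hA]; omega), Finset.card_univ, ZMod.card]
        rfl
      · rintro rfl
        refine ⟨A1 r l, card_A1 r l hr, ?_⟩
        rw [hfold_two _ (by rw [card_A1 r l hr]; omega), Finset.card_univ, ZMod.card]
    rw [u, this, csInf_singleton]
  · have h1 : uhat (2 * r * (2 * l + 1)) (r * (2 * l + 1) + 1) 2 ≤ (hhat (A1 r l) 2).card :=
      Nat.sInf_le ⟨A1 r l, card_A1 r l hr, rfl⟩
    have h2 := Finset.card_le_card (hhat_sub r l hr hl)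
    have h3 : ((2 * r : ℕ) : ZMod (2 * r * (2 * l + 1))) ≠ 0 := by
      intro h
      rw [ZMod.natCast_eq_zero_iff] at h
      have := Nat.le_of_dvd (by omega) h
      have := two_lt hr hl
      omega
    rw [Finset.card_erase_of_mem (mem_erase.2 ⟨h3, mem_univ _⟩),
      Finset.card_erase_of_mem (mem_univ _), Finset.card_univ, ZMod.card] at h2
    omega

theorem upper (n : ℕ) (h2 : 2 ∣ n) (hn : n ≠ 0) (hpow : ∀ a : ℕ, n ≠ 2 ^ a) :
    u n (n / 2 + 1) 2 = n ∧ 2 * (n / 2 + 1) - 2 ^ 2 + 1 = n - 1 ∧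
    uhat n (n / 2 + 1) 2 ≤ n - 2 ∧
    uhat n (n / 2 + 1) 2 < min (u n (n / 2 + 1) 2) (2 * (n / 2 + 1) - 2 ^ 2 + 1) := by
  obtain ⟨a, k, hk, hnk⟩ := Nat.exists_eq_two_pow_mul_odd hn
  obtain ⟨l, rfl⟩ := hk
  have hl : 1 ≤ l := by
    by_contra h
    have h0 : l = 0 := by omega
    rw [h0] at hnk
    exact hpow a (by simpa using hnk)
  have ha : a ≠ 0 := by
    rintro rfl
    rw [pow_zero, one_mul] at hnk
    omega
  obtain ⟨b, rfl⟩ := Nat.exists_eq_succ_of_ne_zero ha
  have hr : 1 ≤ 2 ^ b := Nat.one_le_two_pow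
  have e : n = 2 * 2 ^ b * (2 * l + 1) := by rw [hnk, Nat.succ_eq_add_one, pow_succ]; ring
  have e2 : n / 2 = 2 ^ b * (2 * l + 1) := by
    rw [e, mul_assoc, Nat.mul_div_cancel_left _ (by norm_num)]
  have hm := main (2 ^ b) l hr hl
  rw [← e, ← e2] at hm
  have h5 : 2 ^ b * 3 ≤ 2 ^ b * (2 * l + 1) := Nat.mul_le_mul_left _ (by omega)
  have h6 : 3 ≤ n / 2 := by omega
  obtain ⟨t, rfl⟩ := h2
  have h7 : 2 * t / 2 = t := by omega
  rw [h7] at hm h6 ⊢
  rw [hm.1]
  refine ⟨rfl, by omega, hm.2, ?_⟩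
  have := hm.2
  rw [lt_min_iff]
  omega

/-! ### lower bounds -/

/-- `g` is not a sum of two distinct elements of `A` -/
def Mis {n : ℕ} (A : Finset (ZMod n)) (g : ZMod n) : Prop := ∀ x ∈ A, ∀ y ∈ A, x ≠ y → x + y ≠ g

theorem two_tors {n : ℕ} [NeZero n] (z : ZMod n) (h : z + z = 0) :
    z = 0 ∨ z = ((n / 2 : ℕ) : ZMod n) := by
  have h1 : ((z.val + z.val : ℕ) : ZMod n) = 0 := by
    rw [Nat.cast_add, ZMod.natCast_zmod_val]; exact h
  rw [ZMod.natCast_eq_zero_iff] at h1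
  have hlt := ZMod.val_lt z
  obtain ⟨c, hc⟩ := h1
  have hc2 : c < 2 := by
    by_contra hh
    have : n * 2 ≤ n * c := Nat.mul_le_mul_left n (by omega)
    omega
  interval_cases c
  · left
    rw [← ZMod.val_eq_zero]
    omega
  · right
    have : z.val = n / 2 := by omega
    rw [← this, ZMod.natCast_zmod_val]

theorem mis_union {n : ℕ} [NeZero n] {A : Finset (ZMod n)} (hA : n + 2 ≤ 2 * A.card)
    {g : ZMod n} (hg : Mis A g) : (∀ y, y ∉ A → g - y ∈ A) ∧ ∃ a ∈ A, a + a = g := by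
  have himg : (A.image (fun x => g - x)).card = A.card := by
    rw [Finset.card_image_of_injective _ (fun x y hxy => by simpa using hxy)]
  have hI : ∀ x ∈ A ∩ A.image (fun x => g - x), x ∈ A ∧ x + x = g := by
    intro x hx
    rw [mem_inter, mem_image] at hx
    obtain ⟨hx, y, hy, hyx⟩ := hx
    refine ⟨hx, ?_⟩
    by_contra hne
    have hxy : x ≠ y := by
      rintro rfl
      apply hne
      calc x + x = (g - x) + x := by rw [hyx]
        _ = g := by ring
    exact hg x hx y hy hxy (by rw [← hyx]; ring)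
  have hcI : (A ∩ A.image (fun x => g - x)).card ≤ 2 := by
    rcases (A ∩ A.image (fun x => g - x)).eq_empty_or_nonempty with h0 | ⟨x0, hx0⟩
    · rw [h0]; simp
    · have hsub : A ∩ A.image (fun x => g - x) ⊆ {x0, x0 + ((n / 2 : ℕ) : ZMod n)} := by
        intro x hx
        have h1 := (hI x hx).2
        have h2 := (hI x0 hx0).2
        have h3 : (x - x0) + (x - x0) = 0 := by linear_combination h1 - h2
        rw [mem_insert, mem_singleton]
        rcases two_tors _ h3 with h4 | h4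
        · left; linear_combination h4
        · right; linear_combination h4
      exact (Finset.card_le_card hsub).trans Finset.card_le_two
  have hun := Finset.card_union_add_card_inter A (A.image (fun x => g - x))
  rw [himg] at hun
  have hle := Finset.card_le_univ (A ∪ A.image (fun x => g - x))
  rw [ZMod.card] at hle
  have huniv : A ∪ A.image (fun x => g - x) = univ := by
    apply Finset.eq_univ_of_card
    rw [ZMod.card]
    omega
  constructor
  · intro y hy
    have h1 : y ∈ A ∪ A.image (fun x => g - x) := by rw [huniv]; exact mem_univ _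
    rw [mem_union, mem_image] at h1
    rcases h1 with h1 | ⟨b, hb, hby⟩
    · exact absurd h1 hy
    · have : g - y = b := by rw [← hby]; ring
      rwa [this]
  · have hpos : 0 < (A ∩ A.image (fun x => g - x)).card := by omega
    obtain ⟨a, ha⟩ := Finset.card_pos.1 hpos
    exact ⟨a, hI a ha⟩

theorem mis_self {n : ℕ} {A : Finset (ZMod n)} {g x : ZMod n} (hg : Mis A g) (hx : x ∈ A)
    (hgx : g - x ∈ A) : x + x = g := by
  by_contra hne
  have hxy : x ≠ g - x := by
    intro h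
    apply hne
    linear_combination h
  exact hg x hx (g - x) hgx hxy (by ring)

theorem q1 {n : ℕ} {A : Finset (ZMod n)} {g g' a : ZMod n} (hg' : Mis A g') (hne : g ≠ g')
    (ha : a ∈ A) (haa : a + a = g) : a + (g' - g) ∉ A := by
  intro h
  have h1 := mis_self hg' h (by
    have : g' - (a + (g' - g)) = a := by linear_combination -haa
    rwa [this])
  apply hne
  linear_combination haa - h1

theorem q2 {n : ℕ} [NeZero n] {A : Finset (ZMod n)} (hA : n + 2 ≤ 2 * A.card) {g g' x : ZMod n}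
    (hg : Mis A g) (hg' : Mis A g') (hx : x ∈ A) (hxx : x + x ≠ g) : x + (g' - g) ∈ A := by
  have h1 : g - x ∉ A := fun h => hxx (mis_self hg hx h)
  have h2 := (mis_union hA hg').1 _ h1
  have : x + (g' - g) = g' - (g - x) := by ring
  rwa [this]

theorem q4 {n : ℕ} [NeZero n] {A : Finset (ZMod n)} (hA : n + 2 ≤ 2 * A.card) {g g' : ZMod n}
    (hg : Mis A g) (hg' : Mis A g') (hne : g ≠ g') : (g' - g) + (g' - g) ≠ 0 := by
  intro h
  obtain ⟨a, ha, haa⟩ := (mis_union hA hg).2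
  have h1 := q2 hA hg' hg ha (by rw [haa]; exact hne)
  have h2 := q1 hg' hne ha haa
  apply h2
  have : a + (g' - g) = a + (g - g') := by linear_combination h
  rwa [this]

theorem three {n : ℕ} [NeZero n] {A : Finset (ZMod n)} (hA : n + 2 ≤ 2 * A.card)
    {g g' g'' : ZMod n} (hg : Mis A g) (hg' : Mis A g') (hg'' : Mis A g'') (h1 : g ≠ g')
    (h2 : g ≠ g'') (h3 : g' ≠ g'') : False := by
  obtain ⟨a, ha, haa⟩ := (mis_union hA hg).2
  have e1 := q2 hA hg' hg ha (by rw [haa]; exact h1)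
  have e2 := q2 hA hg hg'' e1 (by
    intro h
    apply q4 hA hg hg' h1
    linear_combination haa - h)
  have e3 := q2 hA hg hg' e2 (by
    intro h
    apply q4 hA hg' hg'' h3
    linear_combination h - haa)
  apply q1 hg'' h2 ha haa
  have : a + (g'' - g) = a + (g - g') + (g'' - g) + (g' - g) := by ring
  rwa [this]

theorem pow_two {e : ℕ} {A : Finset (ZMod (2 ^ e))} (hA : 2 ^ e + 2 ≤ 2 * A.card)
    {g g' : ZMod (2 ^ e)} (hg : Mis A g) (hg' : Mis A g') (hne : g ≠ g') : False := by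
  obtain ⟨a, ha, haa⟩ := (mis_union hA hg).2
  have hall : ∀ j : ℕ, a + (j : ZMod (2 ^ e)) * (g - g') ∈ A := by
    intro j
    induction j with
    | zero => simpa using ha
    | succ j ih =>
      have h1 := q2 hA hg' hg ih (by
        intro h
        have h2 : ((2 * j + 1 : ℕ) : ZMod (2 ^ e)) * (g - g') = 0 := by
          push_cast
          linear_combination h - haa
        have hu : IsUnit ((2 * j + 1 : ℕ) : ZMod (2 ^ e)) := by
          rw [ZMod.isUnit_iff_coprime]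
          exact Nat.Coprime.pow_right e (by simp)
        rw [hu.mul_right_eq_zero] at h2
        exact hne (sub_eq_zero.1 h2))
      have : a + ((j + 1 : ℕ) : ZMod (2 ^ e)) * (g - g') =
          a + (j : ZMod (2 ^ e)) * (g - g') + (g - g') := by
        push_cast; ring
      rwa [this]
  apply q1 hg' hne ha haa
  have h1 := hall (2 ^ e - 1)
  have h2 : (1 : ℕ) ≤ 2 ^ e := Nat.one_le_two_pow
  have h3 : ((2 ^ e : ℕ) : ZMod (2 ^ e)) = 0 := ZMod.natCast_self _
  rw [Nat.cast_sub h2, h3] at h1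
  have : a + (g' - g) = a + (0 - ((1 : ℕ) : ZMod (2 ^ e))) * (g - g') := by
    push_cast; ring
  rwa [this]

theorem mis_iff {n : ℕ} {A : Finset (ZMod n)} {g : ZMod n} (h : g ∉ hhat A 2) : Mis A g := by
  intro x hx y hy hxy hs
  apply h
  rw [hhat, mem_image]
  refine ⟨{x, y}, ?_, ?_⟩
  · rw [mem_powersetCard, Finset.card_pair hxy]
    refine ⟨?_, rfl⟩
    intro z hz
    rw [mem_insert, mem_singleton] at hz
    rcases hz with rfl | rfl
    · exact hx
    · exact hy
  · rw [Finset.sum_pair hxy, hs]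

theorem lower_gen {n : ℕ} [NeZero n] {A : Finset (ZMod n)} (hA : n + 2 ≤ 2 * A.card) :
    n - 2 ≤ (hhat A 2).card := by
  by_contra hlt
  have hc : 2 < (univ \ hhat A 2).card := by
    rw [Finset.card_sdiff_of_subset (Finset.subset_univ _), Finset.card_univ, ZMod.card]
    omega
  rw [Finset.two_lt_card] at hc
  obtain ⟨a, ha, b, hb, c, hc', h1, h2, h3⟩ := hc
  rw [mem_sdiff] at ha hb hc'
  exact three hA (mis_iff ha.2) (mis_iff hb.2) (mis_iff hc'.2) h1 h2 h3

theorem lower_pow {e : ℕ} {A : Finset (ZMod (2 ^ e))} (hA : 2 ^ e + 2 ≤ 2 * A.card) :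
    2 ^ e - 1 ≤ (hhat A 2).card := by
  by_contra hlt
  have hc : 1 < (univ \ hhat A 2).card := by
    rw [Finset.card_sdiff_of_subset (Finset.subset_univ _), Finset.card_univ, ZMod.card]
    omega
  rw [Finset.one_lt_card] at hc
  obtain ⟨a, ha, b, hb, h1⟩ := hc
  rw [mem_sdiff] at ha hb
  exact pow_two hA (mis_iff ha.2) (mis_iff hb.2) h1

theorem exists_card {n m : ℕ} [NeZero n] (h : m ≤ n) : ∃ A : Finset (ZMod n), A.card = m := by
  obtain ⟨A, _, hA⟩ := Finset.exists_subset_card_eq (s := (univ : Finset (ZMod n))) (n := m)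
    (by rw [Finset.card_univ, ZMod.card]; exact h)
  exact ⟨A, hA⟩

/-- For even `n ≥ 4`, `m = n / 2 + 1` and `h = 2` the upper bound is attained if and only if `n` is a
power of two; if `n` is not a power of two then `û(n,m,2) = n - 2`. -/
theorem result (n : ℕ) (h2 : 2 ∣ n) (hn : 4 ≤ n) :
    (uhat n (n / 2 + 1) 2 < min (u n (n / 2 + 1) 2) (2 * (n / 2 + 1) - 2 ^ 2 + 1) ↔
      ∀ a : ℕ, n ≠ 2 ^ a) ∧
    ((∀ a : ℕ, n ≠ 2 ^ a) → uhat n (n / 2 + 1) 2 = n - 2) ∧
    2 * (n / 2 + 1) - 2 ^ 2 + 1 = n - 1 := by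
  have hn0 : NeZero n := ⟨by omega⟩
  have hne : {t | ∃ A : Finset (ZMod n), A.card = n / 2 + 1 ∧ (hhat A 2).card = t}.Nonempty := by
    obtain ⟨A, hA⟩ := exists_card (n := n) (m := n / 2 + 1) (by omega)
    exact ⟨_, A, hA, rfl⟩
  refine ⟨⟨?_, ?_⟩, ?_, by omega⟩
  · rintro hlt a rfl
    have h1 : 2 ^ a - 1 ≤ uhat (2 ^ a) (2 ^ a / 2 + 1) 2 := by
      apply le_csInf hne
      rintro t ⟨A, hA, rfl⟩
      apply lower_pow
      rw [hA]
      omega
    have h3 := lt_of_lt_of_le hlt (min_le_right _ _)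
    omega
  · intro h
    exact (upper n h2 (by omega) h).2.2.2
  · intro h
    apply le_antisymm (upper n h2 (by omega) h).2.2.1
    apply le_csInf hne
    rintro t ⟨A, hA, rfl⟩
    apply lower_gen
    rw [hA]
    omega

end Pool.Agent.Results.MP_09e4ca_co.TwoFold
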